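import Pool.Agent.R806.Osc.Main

/-!
# The `sl(2)`-weight system at `c = -3/32` extends to a 4-invariant of graphs

The definitions are in `Pool/Agent/R806/Osc/Defs.lean`:

* `toggle G a b` is `G'_{ab}`, `slide G a b` is `G̃_{ab}`, `IsFourInvariant f` says that the function
  `f` of finite simple graphs is invariant under isomorphisms and satisfies the four-term relation;
* a chord diagram of order `n` is given by the word `D : List (Fin n)` in which every letter occurs
  twice (`IsChordDiagram D`), `interGraph D` is its intersection graph;
* `casimir` is the Casimir element `C = (EF + FE + H^2/2)/4` of the universal enveloping algebra `U`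
  of `sl(2)` over `ℂ`, and `weight D` is the value of the `sl(2)`-weight system at `D`, an element
  of `U`.

Proof.  Let `Q_G(y) = ∑ S, (-1)^{e(G[S])} ∏ v ∈ S, y_v` (sum over all sets of vertices, `e(G[S])` is
the number of edges in `S`).  The extension is
`ξ(G) = (-1/32)^n [∏ v, y_v ^ 2] Q_G(y)^{-2}`: for a natural number `N` in the place of `-2` this
coefficient is a sum over all choices of a 2-subset `P_v` of `{1, …, N}` for every vertex, with the
weight `∏ (-1)^{|P_u ∩ P_v|}` over the edges `uv`, and the replacement of `P_b` by the symmetric
difference with `P_a` (if they have one common element) proves the four-term relation.  In the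
oscillator representation (`C = -3/32`) the generators of `sl(2)` are quadratic in `x` and `∂`, every
chord is replaced by a pair of parallel chords with `x ⊗ ∂ - ∂ ⊗ x`, and the values of the
diagrams with these simple chords satisfy the same recursion as the coefficients
`[∏ v, y_v] Q^{-2}`.
-/

set_option autoImplicit false

namespace Pool.Agent.Results.MP_4cfd5d_gt.OscillatorExtension

open Polynomial Pool.Agent.R806.Osc

/-- There is a 4-invariant of graphs `ξ` such that for every chord diagram `D` the value of the
`sl(2)`-weight system at `D` is `P(C)` for a unique polynomial `P`, and `ξ(Γ(D)) = P(-3/32)`. -/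
theorem result :
    ∃ ξ : ∀ (V : Type) [Finite V], SimpleGraph V → ℂ, IsFourInvariant ξ ∧
      ∀ (n : ℕ) (D : List (Fin n)), IsChordDiagram D →
        (∃! P : ℂ[X], aeval casimir P = weight D) ∧
        ∀ P : ℂ[X], aeval casimir P = weight D →
          ξ (Fin n) (interGraph D) = P.eval (-3 / 32) := by
  refine ⟨xi, xi_four, fun n D hD => ⟨?_, fun P hP => xi_weight hD P hP⟩⟩
  obtain ⟨P, hP⟩ := weight_mem hD
  exact ⟨P, hP, fun Q hQ => aeval_inj (hQ.trans hP.symm)⟩

end Pool.Agent.Results.MP_4cfd5d_gt.OscillatorExtension
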